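import Mathlib
import Pool.Agent.Q184.Piece.Words

/-!
# Products of shears
-/

open Polynomial Q184.Piece

namespace Q184.FixFree

/-- the ratio `β / α` -/
noncomputable def rat : ℝ := 3 * √2 / 4

theorem rat_ne (p q : ℕ) (h : (p, q) ≠ (0, 0)) : (p : ℝ) * rat - q ≠ 0 := by
  intro h0
  unfold rat at h0
  by_cases hp : p = 0
  · subst hp
    simp at h0
    apply h
    rw [h0]
  · have hp' : (p : ℝ) ≠ 0 := by exact_mod_cast hp
    have h2 : √2 = ((4 * q / (3 * p) : ℚ) : ℝ) := by
      push_cast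
      field_simp
      linear_combination 4 * h0
    exact irrational_sqrt_two ⟨_, h2.symm⟩

/-- the numbers of the translations by `β` and `-α` -/
def pe (j : Fin 3) : ℕ := if j = 1 then 0 else 1
def qe (j : Fin 3) : ℕ := if j = 0 then 0 else 1

theorem pq_ne (j : Fin 3) : pe j ≠ 0 ∨ qe j ≠ 0 := by fin_cases j <;> simp [pe, qe]

noncomputable def cc (p q : ℕ) : ℝ := (p : ℝ) * rat - q

noncomputable def sg (b : Bool) : ℝ := if b = true then 1 else -1

theorem sg_ne (b : Bool) : sg b ≠ 0 := by cases b <;> simp [sg]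

noncomputable def Mt (a : Fin 2 × Bool) (j : Fin 3) : Matrix (Fin 2) (Fin 2) ℂ[X] :=
  if a.1 = 0 then !![1, C ((sg a.2 * cc (pe j) (qe j) : ℝ) : ℂ) * X; 0, 1]
    else !![1, 0; C ((sg a.2 * cc (pe j) (qe j) : ℝ) : ℂ) * X, 1]

/-- the other index -/
def oth (i : Fin 2) : Fin 2 := if i = 0 then 1 else 0

theorem Mt_mul (a : Fin 2 × Bool) (j : Fin 3) (P : Matrix (Fin 2) (Fin 2) ℂ[X]) (k : Fin 2) :
    (Mt a j * P) a.1 k = P a.1 k +
      C ((sg a.2 * cc (pe j) (qe j) : ℝ) : ℂ) * X * P (oth a.1) k ∧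
    (Mt a j * P) (oth a.1) k = P (oth a.1) k := by
  obtain ⟨i, b⟩ := a
  fin_cases i
  · constructor <;> simp [Mt, oth, Matrix.mul_apply, Fin.sum_univ_two]
  · constructor
    · simp [Mt, oth, Matrix.mul_apply, Fin.sum_univ_two]
      ring
    · simp [Mt, oth, Matrix.mul_apply, Fin.sum_univ_two]

/-- the invariant of the induction: a column of the product -/
def Inv (a : Fin 2 × Bool) (v : Fin 2 → ℂ[X]) : Prop :=
  ∃ (p q : ℕ) (w : ℂ[X]), (p, q) ≠ (0, 0) ∧ w.degree < (v (oth a.1)).degree ∧
    v a.1 = w + C ((sg a.2 * cc p q : ℝ) : ℂ) * X * v (oth a.1)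

theorem Inv.deg {a : Fin 2 × Bool} {v : Fin 2 → ℂ[X]} (h : Inv a v) :
    v (oth a.1) ≠ 0 ∧ (v (oth a.1)).degree < (v a.1).degree := by
  obtain ⟨p, q, w, hpq, hw, hv⟩ := h
  have h0 : v (oth a.1) ≠ 0 := by
    intro h
    rw [h, degree_zero] at hw
    exact not_lt_bot hw
  have hc : ((sg a.2 * cc p q : ℝ) : ℂ) ≠ 0 := by
    exact_mod_cast mul_ne_zero (sg_ne _) (rat_ne p q hpq)
  have h1 : (C ((sg a.2 * cc p q : ℝ) : ℂ) * X * v (oth a.1)).degree =
      1 + (v (oth a.1)).degree := by
    rw [degree_mul, degree_C_mul_X hc]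
  have h2 : (v (oth a.1)).degree < 1 + (v (oth a.1)).degree := by
    rw [degree_eq_natDegree h0]
    norm_cast
    omega
  refine ⟨h0, ?_⟩
  rw [hv, degree_add_eq_right_of_degree_lt]
  · rw [h1]; exact h2
  · rw [h1]; exact hw.trans h2

theorem oth_oth (i : Fin 2) : oth (oth i) = i := by fin_cases i <;> rfl
theorem oth_of_ne {i j : Fin 2} (h : i ≠ j) : oth i = j := by
  fin_cases i <;> fin_cases j <;> simp_all [oth]

theorem prod_inv (L : List ((Fin 2 × Bool) × Fin 3)) (hL : L ≠ [])
    (hr : FreeGroup.IsReduced (L.map Prod.fst)) :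
    ∃ k : Fin 2, ∃ a ∈ (L.map Prod.fst).head?, Inv a (fun i => prodMat Mt L i k) := by
  induction L with
  | nil => exact absurd rfl hL
  | cons x L ih =>
    by_cases h0 : L = []
    · subst h0
      refine ⟨oth x.1.1, x.1, by simp, pe x.2, qe x.2, 0, ?_, ?_, ?_⟩
      · intro h
        have h1 := congrArg Prod.fst h
        have h2 := congrArg Prod.snd h
        rcases pq_ne x.2 with h3 | h3
        · exact h3 h1
        · exact h3 h2
      · rw [prodMat_cons, prodMat_nil]
        beta_reduce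
        rw [(Mt_mul x.1 x.2 1 (oth x.1.1)).2]
        simp
      · simp only
        rw [prodMat_cons, prodMat_nil]
        rw [(Mt_mul x.1 x.2 1 (oth x.1.1)).2, (Mt_mul x.1 x.2 1 (oth x.1.1)).1]
        have : (1 : Matrix (Fin 2) (Fin 2) ℂ[X]) x.1.1 (oth x.1.1) = 0 := by
          rw [Matrix.one_apply_ne]
          intro h
          have h1 : oth x.1.1 ≠ x.1.1 := by
            generalize x.1.1 = i
            fin_cases i <;> simp [oth]
          exact h1 h.symm
        rw [this]
    · obtain ⟨y, L', rfl⟩ := List.exists_cons_of_ne_nil h0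
      have hr' : FreeGroup.IsReduced (y.1 :: L'.map Prod.fst) ∧
          (x.1.1 = y.1.1 → x.1.2 = y.1.2) := by
        have h2 := FreeGroup.isReduced_cons_cons.mp hr
        exact ⟨h2.2, h2.1⟩
      obtain ⟨k, a, ha, hI⟩ := ih h0 hr'.1
      have ha' : a = y.1 := by simpa using ha.symm
      subst ha'
      refine ⟨k, x.1, by simp, ?_⟩
      by_cases hxy : x.1.1 = y.1.1
      · obtain ⟨p, q, w, hpq, hw, hv⟩ := hI
        simp only at hw hv
        refine ⟨p + pe x.2, q + qe x.2, w, ?_, ?_, ?_⟩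
        · intro h
          have h1 := congrArg Prod.fst h
          have h2 := congrArg Prod.snd h
          simp only at h1 h2
          exact hpq (Prod.ext (by simp only; omega) (by simp only; omega))
        · simp only
          rw [prodMat_cons Mt x, (Mt_mul x.1 x.2 _ k).2, hxy]
          exact hw
        · simp only
          rw [prodMat_cons Mt x, (Mt_mul x.1 x.2 _ k).2, (Mt_mul x.1 x.2 _ k).1, hxy, hv,
            hr'.2 hxy]
          have : cc (p + pe x.2) (q + qe x.2) = cc p q + cc (pe x.2) (qe x.2) := by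
            unfold cc
            push_cast
            ring
          rw [this]
          push_cast
          rw [mul_add, C_add]
          ring
      · obtain ⟨h1, h2⟩ := hI.deg
        have hox : oth x.1.1 = y.1.1 := oth_of_ne hxy
        have hoy : oth y.1.1 = x.1.1 := oth_of_ne (fun h => hxy h.symm)
        rw [hoy] at h1 h2
        refine ⟨pe x.2, qe x.2, prodMat Mt (y :: L') x.1.1 k, ?_, ?_, ?_⟩
        · intro h
          have h1 := congrArg Prod.fst h
          have h2 := congrArg Prod.snd h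
          rcases pq_ne x.2 with h3 | h3
          · exact h3 h1
          · exact h3 h2
        · simp only
          rw [prodMat_cons Mt x, (Mt_mul x.1 x.2 _ k).2, hox]
          exact h2
        · simp only
          rw [prodMat_cons Mt x, (Mt_mul x.1 x.2 _ k).2, (Mt_mul x.1 x.2 _ k).1]

theorem prod_not_scal (L : List ((Fin 2 × Bool) × Fin 3)) (hL : L ≠ [])
    (hr : FreeGroup.IsReduced (L.map Prod.fst)) : ¬ Scal (prodMat Mt L) := by
  rintro ⟨h1, h2, h3⟩
  obtain ⟨k, a, -, hI⟩ := prod_inv L hL hr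
  obtain ⟨h4, h5⟩ := hI.deg
  have h6 : prodMat Mt L a.1 k ≠ 0 := by
    intro h
    rw [h, degree_zero] at h5
    exact not_lt_bot h5
  have h7 : ∀ i, prodMat Mt L i k ≠ 0 := by
    intro i
    by_cases h : i = a.1
    · rw [h]; exact h6
    · have : i = oth a.1 := (oth_of_ne (fun h' => h h'.symm)).symm
      rw [this]; exact h4
  fin_cases k
  · exact h7 1 h2
  · exact h7 0 h1

end Q184.FixFree
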