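import Mathlib
import Pool.Agent.Q184.Cong.Geom
import Pool.Agent.Q184.Piece.Exch
import Pool.Agent.Q184.Piece.WordsY
import Pool.Agent.Q184.Piece.Absorb
import Pool.Agent.Q184.FixFree.Mats

/-!
# Fixed point free groups of piecewise isometries of a bounded subset of the hyperbolic plane
-/

open UpperHalfPlane Set Q184.Piece ComplexConjugate Polynomial

namespace Q184.FixFree

/-! ### Isometries -/

/-- horizontal translation -/
noncomputable def hor (s : ℝ) : ℍ ≃ᵢ ℍ := ⟨AddAction.toPerm s, isometry_real_vadd s⟩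

theorem hor_apply (s : ℝ) (z : ℍ) : hor s z = s +ᵥ z := rfl

noncomputable def J : GL (Fin 2) ℝ :=
  Matrix.GeneralLinearGroup.mkOfDetNeZero !![0, 1; 1, 0] (by simp)

/-- the reflection `z ↦ 1 / z̄` -/
noncomputable def io : ℍ ≃ᵢ ℍ := Q184.Cong.isomOf J

theorem J_det : J.det.val < 0 := by
  rw [Matrix.GeneralLinearGroup.val_det_apply]
  change Matrix.det !![(0 : ℝ), 1; 1, 0] < 0
  simp

theorem coe_io (z : ℍ) : ((io z : ℍ) : ℂ) = (conj (z : ℂ))⁻¹ := by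
  have h1 : ((J • z : ℍ) : ℂ) = _ := coe_smul J z
  have hσ : σ J = Complex.conjCAE := by
    rw [σ, if_neg (not_lt.mpr J_det.le)]
  rw [hσ] at h1
  have h2 : num J z = 1 := by
    simp [num, J, Matrix.GeneralLinearGroup.mkOfDetNeZero]
  have h3 : denom J z = z := by
    simp [denom, J, Matrix.GeneralLinearGroup.mkOfDetNeZero]
  rw [h2, h3] at h1
  have h4 : (Complex.conjCAE (1 / (z : ℂ)) : ℂ) = (conj (z : ℂ))⁻¹ := by
    change conj (1 / (z : ℂ)) = _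
    rw [map_div₀, map_one, one_div]
  rw [h4] at h1
  exact h1

theorem io_io (z : ℍ) : io (io z) = z := by
  apply UpperHalfPlane.ext
  rw [coe_io, coe_io, map_inv₀, Complex.conj_conj, inv_inv]

theorem im_io (z : ℍ) : (io z).im = z.im / (z.re ^ 2 + z.im ^ 2) := by
  have h := congrArg Complex.im (coe_io z)
  rw [Complex.inv_im, Complex.conj_im, Complex.normSq_conj, Complex.normSq_apply] at h
  have h2 : ((io z : ℍ) : ℂ).im = (io z).im := rfl
  rw [h2] at h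
  rw [h]
  simp only [coe_re, coe_im]
  ring

theorem re_io (z : ℍ) : (io z).re = z.re / (z.re ^ 2 + z.im ^ 2) := by
  have h := congrArg Complex.re (coe_io z)
  rw [Complex.inv_re, Complex.conj_re, Complex.normSq_conj, Complex.normSq_apply] at h
  have h2 : ((io z : ℍ) : ℂ).re = (io z).re := rfl
  rw [h2] at h
  rw [h]
  simp only [coe_re, coe_im]
  ring

/-! ### The region -/

/-- the region `X` -/
def Xset : Set ℍ :=
  {z | (1 / 2 < z.im ∧ z.im ≤ 3 / 5) ∧ 0 < z.re ∧ (1 / 2 < (io z).im ∧ (io z).im ≤ 3 / 5)}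

noncomputable def flow : Flow ℍ where
  dom := {z | 1 / 2 < z.im ∧ z.im ≤ 3 / 5}
  T := fun s z => s +ᵥ z
  t := fun z => z.re
  lo := fun z => √(5 / 3 * z.im - z.im ^ 2)
  hi := fun z => √(2 * z.im - z.im ^ 2)
  mem := fun s z hz => by
    change 1 / 2 < (s +ᵥ z).im ∧ (s +ᵥ z).im ≤ 3 / 5
    rw [vadd_im]
    exact hz
  T_add := fun s s' z _ => (add_vadd s s' z).symm
  T_zero := fun z _ => zero_vadd ℝ z
  t_T := fun s z _ => by
    change (s +ᵥ z).re = z.re + s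
    rw [vadd_re]
    ring
  lo_T := fun s z _ => by
    change √(5 / 3 * (s +ᵥ z).im - (s +ᵥ z).im ^ 2) = √(5 / 3 * z.im - z.im ^ 2)
    rw [vadd_im]
  hi_T := fun s z _ => by
    change √(2 * (s +ᵥ z).im - (s +ᵥ z).im ^ 2) = √(2 * z.im - z.im ^ 2)
    rw [vadd_im]

theorem Xset_eq : Xset = flow.Q := by
  ext z
  have hz : 0 < z.im := z.im_pos
  unfold Xset Flow.Q
  simp only [mem_setOf_eq]
  rw [im_io]
  constructor
  · rintro ⟨h1, h2, h3, h4⟩
    have h5 : 0 < z.re ^ 2 + z.im ^ 2 := by positivity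
    rw [lt_div_iff₀ h5] at h3
    rw [div_le_iff₀ h5] at h4
    refine ⟨h1, ?_, ?_⟩
    · change √(5 / 3 * z.im - z.im ^ 2) ≤ z.re
      rw [Real.sqrt_le_left h2.le]
      linarith
    · change z.re < √(2 * z.im - z.im ^ 2)
      rw [Real.lt_sqrt h2.le]
      linarith
  · rintro ⟨h1, h2, h3⟩
    have h1' : 1 / 2 < z.im ∧ z.im ≤ 3 / 5 := h1
    change √(5 / 3 * z.im - z.im ^ 2) ≤ z.re at h2
    change z.re < √(2 * z.im - z.im ^ 2) at h3
    have h4 : 0 < √(5 / 3 * z.im - z.im ^ 2) := Real.sqrt_pos.mpr (by nlinarith [h1'.1, h1'.2])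
    have h5 : 0 < z.re := by linarith
    have h6 : 0 < z.re ^ 2 + z.im ^ 2 := by positivity
    rw [Real.sqrt_le_left h5.le] at h2
    rw [Real.lt_sqrt h5.le] at h3
    refine ⟨h1', h5, ?_, ?_⟩
    · rw [lt_div_iff₀ h6]; linarith
    · rw [div_le_iff₀ h6]; linarith

theorem io_mem {z : ℍ} (hz : z ∈ Xset) : io z ∈ Xset := by
  obtain ⟨h1, h2, h3⟩ := hz
  refine ⟨h3, ?_, ?_⟩
  · rw [re_io]
    have : 0 < z.re ^ 2 + z.im ^ 2 := by positivity
    positivity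
  · rw [io_io]
    exact h1

theorem lengths {z : ℍ} (hz : z ∈ flow.Q) :
    9 / 100 ≤ flow.hi z - flow.lo z ∧ flow.hi z - flow.lo z ≤ 13 / 100 := by
  have h1 : 1 / 2 < z.im ∧ z.im ≤ 3 / 5 := hz.1
  change 9 / 100 ≤ √(2 * z.im - z.im ^ 2) - √(5 / 3 * z.im - z.im ^ 2) ∧
    √(2 * z.im - z.im ^ 2) - √(5 / 3 * z.im - z.im ^ 2) ≤ 13 / 100
  obtain ⟨u, hu⟩ : ∃ u, u = z.im := ⟨_, rfl⟩
  rw [← hu] at h1 ⊢
  obtain ⟨A, hA⟩ : ∃ A, A = √(2 * u - u ^ 2) := ⟨_, rfl⟩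
  obtain ⟨B, hB⟩ : ∃ B, B = √(5 / 3 * u - u ^ 2) := ⟨_, rfl⟩
  have hA2 : A ^ 2 = 2 * u - u ^ 2 := by rw [hA]; exact Real.sq_sqrt (by nlinarith)
  have hB2 : B ^ 2 = 5 / 3 * u - u ^ 2 := by rw [hB]; exact Real.sq_sqrt (by nlinarith)
  have hA0 : 0 ≤ A := by rw [hA]; exact Real.sqrt_nonneg _
  have hB0 : 0 ≤ B := by rw [hB]; exact Real.sqrt_nonneg _
  rw [← hA, ← hB]
  have a1 : 86 / 100 ≤ A := by
    by_contra h; push Not at h; nlinarith
  have a2 : A ≤ 92 / 100 := by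
    by_contra h; push Not at h; nlinarith
  have b1 : 76 / 100 ≤ B := by
    by_contra h; push Not at h; nlinarith
  have b2 : B ≤ 80 / 100 := by
    by_contra h; push Not at h; nlinarith
  have hab : (A - B) * (A + B) = u / 3 := by linear_combination hA2 - hB2
  constructor
  · by_contra h; push Not at h
    nlinarith
  · by_contra h; push Not at h
    nlinarith

theorem rat_bd : 106 / 100 < rat ∧ rat < 1061 / 1000 := by
  have h2 : √2 ^ 2 = 2 := Real.sq_sqrt (by norm_num)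
  have h0 : 0 ≤ √2 := Real.sqrt_nonneg 2
  unfold rat
  constructor
  · by_contra h; push Not at h; nlinarith
  · by_contra h; push Not at h; nlinarith

/-- the map `φ_t` -/
noncomputable def phi (t : ℝ) : ℍ → ℍ := flow.map t (rat * t)
/-- the map `ψ_t` -/
noncomputable def psi (t : ℝ) (z : ℍ) : ℍ := io (phi t (io z))

theorem phi_bijOn {t : ℝ} (h0 : 7 / 100 < t) (h1 : t < 8 / 100) : BijOn (phi t) Xset Xset := by
  obtain ⟨r1, r2⟩ := rat_bd
  rw [Xset_eq]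
  apply flow.bijOn t (rat * t) (by linarith) (by nlinarith)
  intro z hz
  obtain ⟨l1, l2⟩ := lengths hz
  refine ⟨by linarith, by nlinarith, by nlinarith⟩

theorem psi_bijOn {t : ℝ} (h0 : 7 / 100 < t) (h1 : t < 8 / 100) : BijOn (psi t) Xset Xset := by
  have hs : BijOn io Xset Xset := by
    refine ⟨fun z hz => io_mem hz, io.injective.injOn, fun z hz => ⟨io z, io_mem hz, io_io z⟩⟩
  exact hs.comp ((phi_bijOn h0 h1).comp hs)

theorem phi_cases (t : ℝ) (z : ℍ) : ∃ j : Fin 3, phi t z = (cc (pe j) (qe j) * t) +ᵥ z := by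
  rcases flow.map_cases t (rat * t) z with ⟨-, h⟩ | ⟨-, -, h⟩ | ⟨-, -, h⟩
  · refine ⟨0, ?_⟩
    change flow.map t (rat * t) z = _
    rw [h]
    change (rat * t) +ᵥ z = _
    congr 1
    simp [cc, pe, qe]
  · refine ⟨1, ?_⟩
    change flow.map t (rat * t) z = _
    rw [h]
    change (-t) +ᵥ z = _
    congr 1
    simp [cc, pe, qe]
  · refine ⟨2, ?_⟩
    change flow.map t (rat * t) z = _
    rw [h]
    change (rat * t - t) +ᵥ z = _
    congr 1
    simp [cc, pe, qe]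
    ring

/-! ### Matrices -/

theorem rel_hor (s : ℝ) (z : ℍ) : Rel !![1, (s : ℂ); 0, 1] z ((s +ᵥ z : ℍ) : ℂ) := by
  refine ⟨1, one_ne_zero, ?_, ?_⟩
  · rw [coe_vadd]
    simp
    ring
  · simp

theorem rel_hor' (s : ℝ) (z : ℍ) : Rel !![1, -(s : ℂ); 0, 1] ((s +ᵥ z : ℍ) : ℂ) z := by
  refine ⟨1, one_ne_zero, ?_, ?_⟩
  · rw [coe_vadd]
    simp
  · simp

theorem coe_ver (s : ℝ) (z : ℍ) : ((io (s +ᵥ io z) : ℍ) : ℂ) * (s * z + 1) = z ∧
    (s * (z : ℂ) + 1) ≠ 0 := by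
  have hz : (z : ℂ) ≠ 0 := z.ne_zero
  have h1 : ((io (s +ᵥ io z) : ℍ) : ℂ) = ((s : ℂ) + (z : ℂ)⁻¹)⁻¹ := by
    rw [coe_io, coe_vadd, coe_io, map_add, map_inv₀, Complex.conj_conj, Complex.conj_ofReal]
  have h2 : ((s : ℂ) + (z : ℂ)⁻¹) ≠ 0 := by
    intro h
    rw [h, inv_zero] at h1
    exact (io (s +ᵥ io z)).ne_zero h1
  have h3 : (s * (z : ℂ) + 1) = z * ((s : ℂ) + (z : ℂ)⁻¹) := by
    field_simp
  constructor
  · rw [h1, h3, mul_comm (z : ℂ), inv_mul_cancel_left₀ h2]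
  · rw [h3]
    exact mul_ne_zero hz h2

theorem rel_ver (s : ℝ) (z : ℍ) :
    Rel !![1, 0; (s : ℂ), 1] z ((io (s +ᵥ io z) : ℍ) : ℂ) := by
  obtain ⟨h1, h2⟩ := coe_ver s z
  refine ⟨s * z + 1, h2, ?_, ?_⟩
  · simp
    linear_combination -h1
  · simp

theorem rel_ver' (s : ℝ) (z : ℍ) :
    Rel !![1, 0; -(s : ℂ), 1] ((io (s +ᵥ io z) : ℍ) : ℂ) z := by
  obtain ⟨h1, h2⟩ := coe_ver s z
  have h3 : (-(s : ℂ)) * ((io (s +ᵥ io z) : ℍ) : ℂ) + 1 = (s * (z : ℂ) + 1)⁻¹ := by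
    refine eq_inv_of_mul_eq_one_left ?_
    linear_combination (-(s : ℂ)) * h1
  refine ⟨(s * (z : ℂ) + 1)⁻¹, inv_ne_zero h2, ?_, ?_⟩
  · simp
    rw [eq_comm, inv_mul_eq_iff_eq_mul₀ h2]
    linear_combination -h1
  · simp
    rw [← h3]
    ring

/-! ### The group -/

/-- the two permutations -/
noncomputable def ff {t : ℝ} (h0 : 7 / 100 < t) (h1 : t < 8 / 100) : Fin 2 → Equiv.Perm Xset :=
  ![(phi_bijOn h0 h1).equiv _, (psi_bijOn h0 h1).equiv _]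

theorem ff_zero {t : ℝ} (h0 : 7 / 100 < t) (h1 : t < 8 / 100) (x : Xset) :
    (ff h0 h1 0 x : ℍ) = phi t x := rfl

theorem ff_one {t : ℝ} (h0 : 7 / 100 < t) (h1 : t < 8 / 100) (x : Xset) :
    (ff h0 h1 1 x : ℍ) = io (phi t (io x)) := rfl

theorem stab_countable {t : ℝ} (h0 : 7 / 100 < t) (h1 : t < 8 / 100) (hgood : Good Mt (t : ℂ)) :
    (Stab (ff h0 h1)).Countable := by
  set M : Fin 2 × Bool → Fin 3 → Matrix (Fin 2) (Fin 2) ℂ :=
    fun a j => (Mt a j).map (eval (t : ℂ)) with hM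
  have hM0 : ∀ j, M (0, true) j = !![1, ((cc (pe j) (qe j) * t : ℝ) : ℂ); 0, 1] := by
    intro j
    ext i k
    fin_cases i <;> fin_cases k <;> simp [hM, Mt, sg]
  have hM1 : ∀ j, M (0, false) j = !![1, -((cc (pe j) (qe j) * t : ℝ) : ℂ); 0, 1] := by
    intro j
    ext i k
    fin_cases i <;> fin_cases k <;> simp [hM, Mt, sg]
  have hM2 : ∀ j, M (1, true) j = !![1, 0; ((cc (pe j) (qe j) * t : ℝ) : ℂ), 1] := by
    intro j
    ext i k
    fin_cases i <;> fin_cases k <;> simp [hM, Mt, sg]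
  have hM3 : ∀ j, M (1, false) j = !![1, 0; -((cc (pe j) (qe j) * t : ℝ) : ℂ), 1] := by
    intro j
    ext i k
    fin_cases i <;> fin_cases k <;> simp [hM, Mt, sg]
  let c : Xset → ℂ := fun x => ((x : ℍ) : ℂ)
  have hc : Function.Injective c := by
    intro x y hxy
    exact Subtype.ext (UpperHalfPlane.ext hxy)
  have r1 : ∀ a, ∀ x : Xset, ∃ j, Rel (M (a, true) j) (c x) (c (ff h0 h1 a x)) := by
    refine Fin.forall_fin_two.mpr ⟨fun x => ?_, fun x => ?_⟩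
    · obtain ⟨j, hj⟩ := phi_cases t x
      refine ⟨j, ?_⟩
      rw [hM0]
      change Rel _ _ ((ff h0 h1 0 x : ℍ) : ℂ)
      rw [ff_zero, hj]
      exact rel_hor _ _
    · obtain ⟨j, hj⟩ := phi_cases t (io x)
      refine ⟨j, ?_⟩
      rw [hM2]
      change Rel _ _ ((ff h0 h1 1 x : ℍ) : ℂ)
      rw [ff_one, hj]
      exact rel_ver _ _
  have r2 : ∀ a, ∀ x : Xset, ∃ j, Rel (M (a, false) j) (c (ff h0 h1 a x)) (c x) := by
    refine Fin.forall_fin_two.mpr ⟨fun x => ?_, fun x => ?_⟩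
    · obtain ⟨j, hj⟩ := phi_cases t x
      refine ⟨j, ?_⟩
      rw [hM1]
      change Rel _ ((ff h0 h1 0 x : ℍ) : ℂ) _
      rw [ff_zero, hj]
      exact rel_hor' _ _
    · obtain ⟨j, hj⟩ := phi_cases t (io x)
      refine ⟨j, ?_⟩
      rw [hM3]
      change Rel _ ((ff h0 h1 1 x : ℍ) : ℂ) _
      rw [ff_one, hj]
      exact rel_ver' _ _
  have hsub : Stab (ff h0 h1) ⊆ ⋃ w : {w : FreeGroup (Fin 2) // w ≠ 1},
      {x | FreeGroup.lift (ff h0 h1) w.1 x = x} := by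
    rintro x ⟨w, hw, hx⟩
    exact mem_iUnion.mpr ⟨⟨w, hw⟩, hx⟩
  refine Countable.mono hsub (countable_iUnion fun w => ?_)
  exact (liftY_fixed_finite c hc (ff h0 h1) M r1 r2 hgood w.1 w.2).countable

/-! ### Absorption -/

theorem pow_cases (t : ℝ) (T : Equiv.Perm Xset) (hT : ∀ x, (T x : ℍ) = phi t x) (n : ℕ)
    (x : Xset) : ∃ p q : ℕ, n ≤ p + q ∧ ((T ^ n) x : ℍ) = (cc p q * t) +ᵥ (x : ℍ) := by
  induction n with
  | zero => exact ⟨0, 0, le_rfl, by simp [cc]⟩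
  | succ n ih =>
    obtain ⟨p, q, hpq, h⟩ := ih
    obtain ⟨j, hj⟩ := phi_cases t ((T ^ n) x)
    refine ⟨p + pe j, q + qe j, ?_, ?_⟩
    · rcases pq_ne j with h1 | h1 <;> omega
    · have h2 : (T ^ (n + 1)) x = T ((T ^ n) x) := by rw [pow_succ']; rfl
      rw [h2, hT, hj, h, vadd_vadd]
      congr 1
      unfold cc
      push_cast
      ring

theorem cc_ne {p q : ℕ} (h : 0 < p + q) : cc p q ≠ 0 := by
  apply rat_ne
  intro h2
  have h3 := congrArg Prod.fst h2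
  have h4 := congrArg Prod.snd h2
  simp only at h3 h4
  omega

/-- A function on `X` is given by finitely many isometries. -/
def FI (f : Xset → Xset) : Prop :=
  ∃ S : Set (ℍ ≃ᵢ ℍ), S.Finite ∧ ∀ x, ∃ g ∈ S, (f x : ℍ) = g x

theorem fi_phi {t : ℝ} (f : Xset → Xset) (hf : ∀ x, (f x : ℍ) = phi t x) : FI f := by
  refine ⟨range (fun j : Fin 3 => hor (cc (pe j) (qe j) * t)), finite_range _, fun x => ?_⟩
  obtain ⟨j, hj⟩ := phi_cases t x
  exact ⟨_, mem_range_self j, by rw [hf, hj]; rfl⟩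

theorem fi_psi {t : ℝ} (f : Xset → Xset) (hf : ∀ x, (f x : ℍ) = io (phi t (io x))) : FI f := by
  refine ⟨range (fun j : Fin 3 => (io.trans (hor (cc (pe j) (qe j) * t))).trans io),
    finite_range _, fun x => ?_⟩
  obtain ⟨j, hj⟩ := phi_cases t (io x)
  exact ⟨_, mem_range_self j, by rw [hf, hj]; rfl⟩

/-- The main construction. -/
theorem main : ∃ f : Fin 2 → Equiv.Perm Xset, (∀ i, FI (f i)) ∧
    ∀ w : FreeGroup (Fin 2), w ≠ 1 → ∀ x, FreeGroup.lift f w x ≠ x := by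
  classical
  -- a good parameter
  have hunc : ∀ C : Set ℝ, C.Countable → ∃ t ∉ C, 7 / 100 < t ∧ t < 8 / 100 := by
    intro C hC
    by_contra hcon
    push Not at hcon
    have h6 : (Ioo (7 / 100 : ℝ) (8 / 100)).Countable := by
      refine hC.mono ?_
      intro t ht
      by_contra h
      exact absurd ht.2 (not_lt.mpr (hcon t h ht.1))
    have h7 := h6.le_aleph0
    rw [Cardinal.mk_Ioo_real (by norm_num)] at h7
    exact absurd h7 (not_le.mpr Cardinal.aleph0_lt_continuum)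
  have hbad : {t : ℝ | ¬ Good Mt (t : ℂ)}.Countable :=
    (bad_countable Mt prod_not_scal).preimage Complex.ofReal_injective
  obtain ⟨t, ht, h0, h1⟩ := hunc _ hbad
  have hgood : Good Mt (t : ℂ) := by
    by_contra h
    exact ht h
  have hD := stab_countable h0 h1 hgood
  set D := Stab (ff h0 h1) with hDdef
  -- the second parameter
  set C : Set ℝ := ⋃ p : ℕ × ℕ, ⋃ x ∈ D, ⋃ y ∈ D,
    {((y : ℍ).re - (x : ℍ).re) / cc p.1 p.2} with hC
  have hCc : C.Countable := by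
    refine countable_iUnion fun p => ?_
    refine hD.biUnion fun x _ => ?_
    exact hD.biUnion fun y _ => countable_singleton _
  obtain ⟨t', ht', h0', h1'⟩ := hunc C hCc
  set T : Equiv.Perm Xset := (phi_bijOn h0' h1').equiv _ with hT
  have hTv : ∀ x, (T x : ℍ) = phi t' x := fun x => rfl
  have hTD : ∀ n : ℕ, ∀ d ∈ D, (T ^ (n + 1)) d ∉ D := by
    intro n d hd hd'
    obtain ⟨p, q, hpq, h⟩ := pow_cases t' T hTv (n + 1) d
    apply ht'
    rw [hC]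
    refine mem_iUnion.mpr ⟨(p, q), mem_iUnion₂.mpr ⟨d, hd, mem_iUnion₂.mpr ⟨_, hd', ?_⟩⟩⟩
    have h2 := congrArg UpperHalfPlane.re h
    rw [vadd_re] at h2
    have h3 : cc p q ≠ 0 := cc_ne (by omega)
    rw [mem_singleton_iff, h2]
    field_simp
    ring
  obtain ⟨e, he⟩ := absorb T D hTD
  obtain ⟨f', hf', hfree⟩ := conj_free (ff h0 h1) e
  refine ⟨f', ?_, hfree⟩
  -- the isometries
  obtain ⟨S1, hS1, hS1'⟩ := fi_phi (t := t') T hTv
  have hff : ∀ i, FI (ff h0 h1 i) := by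
    refine Fin.forall_fin_two.mpr ⟨?_, ?_⟩
    · exact fi_phi (t := t) _ (ff_zero h0 h1)
    · exact fi_psi (t := t) _ (ff_one h0 h1)
  have he' : ∀ x, ∃ g ∈ insert (1 : ℍ ≃ᵢ ℍ) S1, ((e x : Xset) : ℍ) = g x := by
    intro x
    rcases he x with h | h
    · exact ⟨1, mem_insert _ _, by rw [h]; rfl⟩
    · obtain ⟨g, hg, hg2⟩ := hS1' x
      exact ⟨g, mem_insert_of_mem _ hg, by rw [h, hg2]⟩
  intro i
  obtain ⟨S2, hS2, hS2'⟩ := hff i
  have hfin : (insert (1 : ℍ ≃ᵢ ℍ) S1).Finite := hS1.insert _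
  refine ⟨(fun g : (ℍ ≃ᵢ ℍ) × (ℍ ≃ᵢ ℍ) × (ℍ ≃ᵢ ℍ) => g.1⁻¹ * (g.2.1 * g.2.2)) ''
    ((insert (1 : ℍ ≃ᵢ ℍ) S1) ×ˢ (S2 ×ˢ (insert (1 : ℍ ≃ᵢ ℍ) S1))),
    ((hfin.prod (hS2.prod hfin)).image _), fun x => ?_⟩
  obtain ⟨g1, hg1, h5⟩ := he' x
  obtain ⟨g2, hg2, h6⟩ := hS2' (e x)
  obtain ⟨g3, hg3, h7⟩ := he' (f' i x)
  refine ⟨_, ⟨(g3, g2, g1), ⟨hg3, hg2, hg1⟩, rfl⟩, ?_⟩
  have h8 := hf' i x
  have h9 : g3 (f' i x) = g2 (g1 x) := by
    rw [← h7, h8, h6, h5]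
  change (f' i x : ℍ) = g3.symm (g2 (g1 x))
  rw [← h9, IsometryEquiv.symm_apply_apply]

end Q184.FixFree
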